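import Pool.Agent.H365.TF.Stm

/-!
# Project TF (helper365): virtual torsion-freeness (`S_TFS`), by helper236
-/

set_option autoImplicit false

namespace Pool.Agent.H365.TF

namespace TFSL

noncomputable section

variable {S : Type} [Ring S]

/-- the left upper entry -/
def gHom (S : Type) [Ring S] : Tri S →* Sˣ where
  toFun u := u.g
  map_one' := rfl
  map_mul' _ _ := rfl

/-- the right lower entry -/
def hHom (S : Type) [Ring S] : Tri S →* Sˣ where
  toFun u := u.h
  map_one' := rfl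
  map_mul' _ _ := rfl

theorem pow_x (u : Tri S) (hg : u.g = 1) (hh : u.h = 1) (n : ℕ) :
    (u ^ n).g = 1 ∧ (u ^ n).h = 1 ∧ (u ^ n).x = n • u.x := by
  induction n with
  | zero =>
    rw [pow_zero, zero_smul]
    exact ⟨rfl, rfl, rfl⟩
  | succ n ih =>
    obtain ⟨h1, h2, h3⟩ := ih
    rw [pow_succ]
    refine ⟨?_, ?_, ?_⟩
    · rw [Tri.mul_g, h1, hg, one_mul]
    · rw [Tri.mul_h, h2, hh, one_mul]
    · rw [Tri.mul_x, h1, hh, h3, Units.val_one, one_mul, mul_one, add_smul, one_smul, add_comm]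

variable {H : Type} [Group H]

/-- the matrix ring of the problem -/
abbrev MM (R : Type) : Type := Matrix (Fin 3) (Fin 3) (Matrix (Fin 3) (Fin 3) R)

theorem smul_zero_mm (p : ℕ) (hp : p ≠ 0) (x : MM (MonoidAlgebra ℤ H)) (h : p • x = 0) : x = 0 := by
  refine Matrix.ext fun i j => Matrix.ext fun k l => ?_
  have h1 : (p • x) i j k l = 0 := by rw [h]; rfl
  have h2 : p • (x i j k l) = 0 := h1
  have h3 : ∀ a, (x i j k l).coeff a = 0 := by
    intro a
    have h4 : (p • (x i j k l)).coeff a = 0 := by rw [h2]; rfl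
    have h5 : (p • (x i j k l)).coeff a = p • ((x i j k l).coeff a) := rfl
    rw [h5, nsmul_eq_mul] at h4
    rcases mul_eq_zero.1 h4 with h6 | h6
    · exact absurd (by exact_mod_cast h6) hp
    · exact h6
  exact MonoidAlgebra.ext (Finsupp.ext fun a => h3 a)

/-- reduction of the matrices -/
def rm (ℓ : ℕ) (N : Subgroup H) [N.Normal] :
    MM (MonoidAlgebra ℤ H) →+* MM (MonoidAlgebra (ZMod ℓ) (H ⧸ N)) :=
  ((red ℓ N).mapMatrix (m := Fin 3)).mapMatrix (m := Fin 3)

theorem fin_mm (ℓ : ℕ) [NeZero ℓ] (N : Subgroup H) [N.Normal] [N.FiniteIndex] :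
    Finite (MM (MonoidAlgebra (ZMod ℓ) (H ⧸ N))) := by
  have h1 : Finite (ZMod ℓ) := inferInstance
  have h2 : Finite (H ⧸ N) := inferInstance
  have h3 : Finite ((H ⧸ N) →₀ ZMod ℓ) :=
    Finite.of_injective (fun f : (H ⧸ N) →₀ ZMod ℓ => (f : (H ⧸ N) → ZMod ℓ))
      DFunLike.coe_injective
  have h4 : Finite (MonoidAlgebra (ZMod ℓ) (H ⧸ N)) :=
    Finite.of_injective (fun f : MonoidAlgebra (ZMod ℓ) (H ⧸ N) => f.coeff)
      (fun f g hfg => by cases f; cases g; simp only at hfg; rw [hfg])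
  infer_instance

theorem nt (h : S_NT2) (ℓ : ℕ) [Fact ℓ.Prime] (N : Subgroup H) [N.Normal] (hN : VRes ℓ H N)
    (g : MM (MonoidAlgebra ℤ H)) (r : ℕ) (hr : r.Coprime ℓ) (hg : g ^ r = 1)
    (h1 : rm ℓ N g = 1) : g = 1 := by
  have h2 := h ℓ H N hN (Fin 3 × Fin 3) (Matrix.compRingEquiv (Fin 3) (Fin 3) _ g) r hr
    (by rw [← map_pow, hg, map_one])
    (by
      have h3 : (Matrix.compRingEquiv (Fin 3) (Fin 3) _ g).map (red ℓ N) =
          Matrix.compRingEquiv (Fin 3) (Fin 3) _ (rm ℓ N g) := rfl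
      rw [h3, h1, map_one])
  have h3 := (Matrix.compRingEquiv (Fin 3) (Fin 3) (MonoidAlgebra ℤ H)).injective
    (a₁ := g) (a₂ := 1) (by rw [h2, map_one])
  exact h3

theorem unit_nt (h : S_NT2) (N M : Subgroup H) [N.Normal] [M.Normal] (hN : VRes 5 H N)
    (hM : VRes 7 H M) (g : (MM (MonoidAlgebra ℤ H))ˣ) (p : ℕ) (hp : p.Prime) (hg : g ^ p = 1)
    (h1 : Units.map (rm 5 N).toMonoidHom g = 1) (h2 : Units.map (rm 7 M).toMonoidHom g = 1) :
    g = 1 := by
  have : Fact (Nat.Prime 5) := ⟨by norm_num⟩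
  have : Fact (Nat.Prime 7) := ⟨by norm_num⟩
  have hg' : (g : MM (MonoidAlgebra ℤ H)) ^ p = 1 := by rw [← Units.val_pow_eq_pow_val, hg]; rfl
  apply Units.ext
  by_cases h5 : p = 5
  · have hc : p.Coprime 7 := by rw [h5]; norm_num
    exact nt h 7 M hM _ p hc hg' (congrArg Units.val h2)
  · have hc : p.Coprime 5 := (Nat.coprime_primes hp (by norm_num)).2 h5
    exact nt h 5 N hN _ p hc hg' (congrArg Units.val h1)

end

end TFSL

open TFSL in
/-- **TFS.** -/
theorem t_TFS : S_NT2 → S_TFS := by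
  intro h H _ h5 h7
  obtain ⟨N, hN⟩ := h5
  obtain ⟨M, hM⟩ := h7
  have := hN.1
  have := hN.2.1
  have := hM.1
  have := hM.2.1
  have : Finite (MM (MonoidAlgebra (ZMod 5) (H ⧸ N))) := fin_mm 5 N
  have : Finite (MM (MonoidAlgebra (ZMod 7) (H ⧸ M))) := fin_mm 7 M
  set Ψ := (((Units.map (rm 5 N).toMonoidHom).comp (gHom (MM (MonoidAlgebra ℤ H)))).prod
      ((Units.map (rm 7 M).toMonoidHom).comp (gHom (MM (MonoidAlgebra ℤ H))))).prod
    (((Units.map (rm 5 N).toMonoidHom).comp (hHom (MM (MonoidAlgebra ℤ H)))).prod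
      ((Units.map (rm 7 M).toMonoidHom).comp (hHom (MM (MonoidAlgebra ℤ H))))) with hΨ
  have hmem : ∀ u, u ∈ Ψ.ker → (Units.map (rm 5 N).toMonoidHom u.g = 1 ∧
      Units.map (rm 7 M).toMonoidHom u.g = 1) ∧ (Units.map (rm 5 N).toMonoidHom u.h = 1 ∧
      Units.map (rm 7 M).toMonoidHom u.h = 1) := by
    intro u hu
    have h1 : Ψ u = 1 := hu
    have h2 := congrArg Prod.fst h1
    have h3 := congrArg Prod.snd h1
    exact ⟨⟨congrArg Prod.fst h2, congrArg Prod.snd h2⟩, ⟨congrArg Prod.fst h3, congrArg Prod.snd h3⟩⟩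
  have hprime : ∀ p : ℕ, p.Prime → ∀ u ∈ Ψ.ker, u ^ p = 1 → u = 1 := by
    intro p hp u hu hup
    obtain ⟨⟨h1, h2⟩, h3, h4⟩ := hmem u hu
    have h5 : u.g = 1 := by
      refine unit_nt h N M hN hM u.g p hp ?_ h1 h2
      have := map_pow (gHom (MM (MonoidAlgebra ℤ H))) u p
      rw [hup] at this
      exact this.symm
    have h6 : u.h = 1 := by
      refine unit_nt h N M hN hM u.h p hp ?_ h3 h4
      have := map_pow (hHom (MM (MonoidAlgebra ℤ H))) u p
      rw [hup] at this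
      exact this.symm
    have h7 := (pow_x u h5 h6 p).2.2
    rw [hup] at h7
    have h8 : u.x = 0 := smul_zero_mm p hp.ne_zero u.x h7.symm
    exact Tri.ext h5 h8 h6
  refine ⟨Ψ.ker, inferInstance, inferInstance, ?_⟩
  intro u hu n
  induction n using Nat.strong_induction_on generalizing u with
  | _ n ih =>
    intro hn hun
    rcases eq_or_ne n 1 with rfl | hn1
    · rwa [pow_one] at hun
    · have hp := Nat.minFac_prime hn1
      obtain ⟨m, hm⟩ := Nat.minFac_dvd n
      have hm0 : 0 < m := by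
        rcases Nat.eq_zero_or_pos m with rfl | h0
        · rw [mul_zero] at hm
          omega
        · exact h0
      have hmn : m < n := by
        have := hp.two_le
        have : 2 * m ≤ n.minFac * m := Nat.mul_le_mul_right _ this
        omega
      have h1 : u ^ m = 1 := by
        apply hprime _ hp _ (Subgroup.pow_mem _ hu m)
        rw [← pow_mul, mul_comm, ← hm, hun]
      exact ih m hmn u hu hm0 h1

end Pool.Agent.H365.TF
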